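import Pool.Agent.Helper50.CC.Type

/-!
SB: for each `t` prime to `m` there is a place of type `t`.
-/

set_option autoImplicit false

namespace Pool.Agent.Helper50.CC

open Module Pool.Agent.Helper71.AA Pool.Agent.Helper73.KT Pool.Agent.Helper70.CC
open Polynomial

variable {F : Type} [Field F] [Fintype F]

/-- A ring homomorphism `ℤ[ζ] → F` and a valuation subring that dominates its kernel. -/
theorem exists_dom {m : ℕ} (hm0 : 0 < m) {ζ : ℂ} (hζ : IsPrimitiveRoot ζ m) {ξ : F} (hξ : IsPrimitiveRoot ξ m) :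
    ∃ A : ValuationSubring ℂ, ∀ h : ℤ[X], eval₂ (Int.castRingHom F) ξ h = 0 →
      A.valuation (eval₂ (Int.castRingHom ℂ) ζ h) < 1 := by
  let f : ℤ[X] →+* ℂ := eval₂RingHom (Int.castRingHom ℂ) ζ
  let g : ℤ[X] →+* F := eval₂RingHom (Int.castRingHom F) ξ
  have hker : RingHom.ker f ≤ RingHom.ker g := by
    intro h hh
    rw [RingHom.mem_ker] at hh ⊢
    have h1 : aeval ζ h = 0 := hh
    have h2 := minpoly.isIntegrallyClosed_dvd (hζ.isIntegral hm0) h1
    rw [← cyclotomic_eq_minpoly hζ hm0] at h2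
    obtain ⟨k, rfl⟩ := h2
    have h3 : g (cyclotomic m ℤ) = 0 := by
      have h4 := hξ.isRoot_cyclotomic hm0
      rw [← map_cyclotomic_int, IsRoot, eval_map] at h4
      exact h4
    rw [map_mul, h3, zero_mul]
  have hker' : RingHom.ker f.rangeRestrict ≤ RingHom.ker g := by
    intro h hh
    apply hker
    rw [RingHom.mem_ker] at hh ⊢
    exact congrArg Subtype.val hh
  let G : f.range →+* F := (f.rangeRestrict.liftOfSurjective f.rangeRestrict_surjective) ⟨g, hker'⟩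
  have hG : ∀ h, G (f.rangeRestrict h) = g h := fun h =>
    RingHom.liftOfSurjective_comp_apply f.rangeRestrict f.rangeRestrict_surjective ⟨g, hker'⟩ h
  obtain ⟨A, -, hA⟩ := Ideal.image_subset_nonunits_valuationSubring (RingHom.ker G) (RingHom.ker_ne_top G)
  refine ⟨A, fun h hh => ?_⟩
  have h1 : f.rangeRestrict h ∈ RingHom.ker G := by
    rw [RingHom.mem_ker, hG]
    exact hh
  have h2 := hA ⟨f.rangeRestrict h, h1, rfl⟩
  exact (A.mem_nonunits_iff).1 h2

theorem exists_place {m : ℕ} (hm : 3 ≤ m) (hF : m ∣ Fintype.card F - 1) {η : MulChar F ℂ}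
    (hη : orderOf η = m) {t : ℕ} (ht : t.Coprime m) :
    ∃ A : ValuationSubring ℂ, IsPlace m η A t := by
  classical
  haveI : NeZero m := ⟨by omega⟩
  have hm0 : 0 < m := by omega
  have hpp := char_prime F
  obtain ⟨N, hN⟩ := hF
  have hq1 : 0 < Fintype.card F - 1 := by
    have := Fintype.one_lt_card (α := F)
    omega
  have hN' : (Fintype.card F - 1) / m = N := by rw [hN, Nat.mul_div_cancel_left _ hm0]
  obtain ⟨g, hg⟩ := IsCyclic.exists_generator (α := Fˣ)
  have hgo : orderOf g = Fintype.card F - 1 := by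
    rw [orderOf_eq_card_of_forall_mem_zpowers hg, Nat.card_eq_fintype_card, Fintype.card_units]
  -- primitive roots
  obtain ⟨ζ, hζd⟩ : ∃ ζ, ζ = η (g : F) := ⟨_, rfl⟩
  have hζ : IsPrimitiveRoot ζ m := by
    have h1 : orderOf ζ = m := by
      apply Nat.dvd_antisymm
      · apply orderOf_dvd_of_pow_eq_one
        rw [hζd, ← MulChar.pow_apply_coe, ← hη, pow_orderOf_eq_one, MulChar.one_apply_coe]
      · rw [← hη]
        apply orderOf_dvd_of_pow_eq_one
        rw [MulChar.eq_iff hg, MulChar.pow_apply_coe, MulChar.one_apply_coe, ← hζd, pow_orderOf_eq_one]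
    rw [← h1]
    exact IsPrimitiveRoot.orderOf ζ
  obtain ⟨ξ, hξd⟩ : ∃ ξ : F, ξ = (g : F) ^ (t * N) := ⟨_, rfl⟩
  have hξ : IsPrimitiveRoot ξ m := by
    have h1 : IsPrimitiveRoot (g : F) (Fintype.card F - 1) := by
      rw [← hgo, ← orderOf_units]
      exact IsPrimitiveRoot.orderOf _
    have h2 : IsPrimitiveRoot ((g : F) ^ N) m := h1.pow hq1 (by rw [hN, mul_comm])
    have h3 := h2.pow_of_coprime t ht
    rw [hξd, mul_comm, pow_mul]
    exact h3
  obtain ⟨A, hA⟩ := exists_dom hm0 hζ hξ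
  haveI : CharP F (ringChar F) := ringChar.charP F
  haveI : Fact (ringChar F).Prime := ⟨hpp⟩
  have hA1 : A.valuation ((ringChar F : ℕ) : ℂ) < 1 := by
    have h1 := hA (C ((ringChar F : ℕ) : ℤ)) (by rw [eval₂_C]; simp)
    rw [eval₂_C] at h1
    simpa using h1
  obtain ⟨ι₀, τ₀, hτ₀⟩ := exists_teich (F := F) A hA1
  obtain ⟨t₀, -, ht₀⟩ := exists_pow (order_teich hτ₀) hN'.symm hη
  obtain ⟨ξ₀, hξ₀⟩ : ∃ ξ₀ : F, ξ₀ = (g : F) ^ (t₀ * N) := ⟨_, rfl⟩
  have hζ0 : ζ = τ₀ g ^ (t₀ * N) := by rw [hζd, ht₀, MulChar.pow_apply_coe]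
  -- the residue of `ζ`
  have hint : IsIntegral ℤ ζ := hζ.isIntegral hm0
  have hres : resMap A ⟨ζ, hint⟩ = ι₀ ξ₀ := by
    have h1 : res (resMap A) ζ = ι₀ ξ₀ := by
      rw [hζ0, res_pow (resMap A) (Pool.Agent.Helper40.QC.int_value τ₀ _), hτ₀, ← map_pow, hξ₀]
    rwa [res_eq (resMap A) hint] at h1
  -- `ξ₀` is conjugate to `ξ`
  letI : Algebra (ZMod (ringChar F)) F := ZMod.algebra F (ringChar F)
  obtain ⟨h, hh⟩ := Polynomial.map_surjective (Int.castRingHom (ZMod (ringChar F)))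
    (ZMod.ringHom_surjective _) (minpoly (ZMod (ringChar F)) ξ)
  have hcomp : (algebraMap (ZMod (ringChar F)) F).comp (Int.castRingHom (ZMod (ringChar F))) =
      Int.castRingHom F := RingHom.ext_int _ _
  have hev : ∀ y : F, aeval y (minpoly (ZMod (ringChar F)) ξ) = eval₂ (Int.castRingHom F) y h := by
    intro y
    rw [← hh, aeval_def, eval₂_map, hcomp]
  have h1 : eval₂ (Int.castRingHom F) ξ h = 0 := by
    rw [← hev]
    exact minpoly.aeval _ _
  have h2 := hA h h1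
  have h3 : resMap A (eval₂ (Int.castRingHom (integralClosure ℤ ℂ)) ⟨ζ, hint⟩ h) = 0 := by
    by_contra h4
    have h5 := (val_one_iff A _).2 h4
    have h6 : ((eval₂ (Int.castRingHom (integralClosure ℤ ℂ)) ⟨ζ, hint⟩ h : integralClosure ℤ ℂ) : ℂ) =
        eval₂ (Int.castRingHom ℂ) ζ h := by
      have h7 := Polynomial.hom_eval₂ h (Int.castRingHom (integralClosure ℤ ℂ))
        (algebraMap (integralClosure ℤ ℂ) ℂ) ⟨ζ, hint⟩
      have h8 : (algebraMap (integralClosure ℤ ℂ) ℂ).comp (Int.castRingHom (integralClosure ℤ ℂ)) =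
        Int.castRingHom ℂ := RingHom.ext_int _ _
      rw [h8] at h7
      exact h7
    rw [h6] at h5
    rw [h5] at h2
    exact lt_irrefl _ h2
  have h4 : eval₂ (Int.castRingHom F) ξ₀ h = 0 := by
    rw [Polynomial.hom_eval₂] at h3
    have h5 : (resMap A).comp (Int.castRingHom (integralClosure ℤ ℂ)) =
      ι₀.comp (Int.castRingHom F) := RingHom.ext_int _ _
    rw [h5, hres, ← Polynomial.hom_eval₂] at h3
    exact (map_eq_zero ι₀).1 h3
  obtain ⟨σ, hσ⟩ := minpoly.exists_algEquiv_of_root (K := ZMod (ringChar F)) (x := ξ₀) (y := ξ)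
    (Algebra.IsAlgebraic.isAlgebraic ξ) (by rw [hev]; exact h4)
  have hσ' : σ.symm ξ = ξ₀ := by rw [← hσ, AlgEquiv.symm_apply_apply]
  let s : F →+* F := (σ.symm : F →+* F)
  have hs : ∀ x, s x = σ.symm x := fun _ => rfl
  have hsu : ∀ x : F, ¬ IsUnit x → τ₀ (s x) = 0 := by
    intro x hx
    rw [isUnit_iff_ne_zero, not_not] at hx
    rw [hx, map_zero, MulChar.map_zero]
  let τ : MulChar F ℂ := ⟨((τ₀ : MulChar F ℂ).toMonoidHom).comp (s : F →* F), hsu⟩
  have hτa : ∀ x, τ x = τ₀ (s x) := fun _ => rfl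
  refine ⟨A, hA1, ι₀.comp s, τ, fun x => ?_, ?_⟩
  · have h5 := hτ₀ (Units.map (s : F →* F) x)
    rw [hτa, RingHom.comp_apply]
    exact h5
  · rw [hN', MulChar.eq_iff hg, MulChar.pow_apply_coe, hτa, ← hζd, hζ0]
    have h5 : τ₀ (s g) ^ (t * N) = τ₀ (s ((g : F) ^ (t * N))) := by rw [map_pow, map_pow]
    have h6 : τ₀ g ^ (t₀ * N) = τ₀ ((g : F) ^ (t₀ * N)) := by rw [map_pow]
    rw [h5, h6, ← hξd, hs, hσ', hξ₀]

end Pool.Agent.Helper50.CC
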