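import Pool.Agent.Helper70.CC.Place
import Pool.Agent.Helper50.SB.JacN

/-!
SB: every valuation subring over the characteristic is a place of some type `t`.
-/

set_option autoImplicit false

namespace Pool.Agent.Helper50.CC

open Module Pool.Agent.Helper71.AA Pool.Agent.Helper73.KT Pool.Agent.Helper70.CC
open Pool.Agent.Helper40.QC

variable {F : Type} [Field F] [Fintype F]

theorem val_one_iff (A : ValuationSubring ℂ) (x : integralClosure ℤ ℂ) :
    A.valuation (x : ℂ) = 1 ↔ resMap A x ≠ 0 := by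
  have h0 : ((algebraMap (integralClosure ℤ ℂ) ℂ).codRestrict A.toSubring (fun x =>
      A.mem_toSubring _ |>.2 (by
        have h : IsIntegral ℤ ((x : integralClosure ℤ ℂ) : ℂ) := x.2
        have h1 : IsIntegral A ((x : integralClosure ℤ ℂ) : ℂ) := h.tower_top
        obtain ⟨y, hy⟩ := IsIntegrallyClosed.isIntegral_iff.1 h1
        rw [show algebraMap (integralClosure ℤ ℂ) ℂ x = algebraMap A ℂ y from hy.symm]
        exact y.2))) x = (⟨(x : ℂ), by
          have h1 : IsIntegral A ((x : integralClosure ℤ ℂ) : ℂ) := (x.2 : IsIntegral ℤ (x : ℂ)).tower_top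
          obtain ⟨y, hy⟩ := IsIntegrallyClosed.isIntegral_iff.1 h1
          rw [← hy]
          exact y.2⟩ : A) := rfl
  unfold resMap
  rw [RingHom.comp_apply, h0, IsLocalRing.residue_ne_zero_iff_isUnit, ValuationSubring.valuation_eq_one_iff]

theorem char_prime (F : Type) [Field F] [Fintype F] : (ringChar F).Prime := CharP.char_is_prime F (ringChar F)

/-- A prime ideal over `p` of the ring of algebraic integers is maximal. -/
theorem max_of_prime {p : ℕ} (hp : p.Prime) {𝔓 : Ideal (integralClosure ℤ ℂ)} (h0 : 𝔓.IsPrime)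
    (hp1 : (p : integralClosure ℤ ℂ) ∈ 𝔓) : 𝔓.IsMaximal := by
  apply Ideal.isMaximal_of_isIntegral_of_isMaximal_comap (R := ℤ)
  have h2 : Ideal.span {(p : ℤ)} ≤ Ideal.comap (algebraMap ℤ (integralClosure ℤ ℂ)) 𝔓 := by
    rw [Ideal.span_singleton_le_iff_mem, Ideal.mem_comap]
    simpa using hp1
  have h3 : (Ideal.span {(p : ℤ)}).IsMaximal :=
    PrincipalIdealRing.isMaximal_of_irreducible (Nat.prime_iff_prime_int.1 hp).irreducible
  have h4 : Ideal.comap (algebraMap ℤ (integralClosure ℤ ℂ)) 𝔓 ≠ ⊤ := Ideal.comap_ne_top _ h0.ne_top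
  rw [← h3.eq_of_le h4 h2]
  exact h3

theorem exists_teich (A : ValuationSubring ℂ) (hA : A.valuation ((ringChar F : ℕ) : ℂ) < 1) :
    ∃ (ι : F →+* IsLocalRing.ResidueField A) (τ : MulChar F ℂ), ∀ x : Fˣ, res (resMap A) (τ x) = ι x := by
  classical
  have hp := char_prime F
  haveI : Fact (ringChar F).Prime := ⟨hp⟩
  haveI : CharP F (ringChar F) := ringChar.charP F
  set 𝔓 : Ideal (integralClosure ℤ ℂ) := RingHom.ker (resMap A) with h𝔓
  have h0 : 𝔓.IsPrime := RingHom.ker_isPrime _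
  have hp1 : ((ringChar F : ℕ) : integralClosure ℤ ℂ) ∈ 𝔓 := by
    rw [h𝔓, RingHom.mem_ker]
    by_contra h
    have h1 := (val_one_iff A _).2 h
    have h2 : (((ringChar F : ℕ) : integralClosure ℤ ℂ) : ℂ) = ((ringChar F : ℕ) : ℂ) := by simp
    rw [h2] at h1
    rw [h1] at hA
    exact lt_irrefl _ hA
  have hmax := max_of_prime hp h0 hp1
  obtain ⟨ι₀⟩ := Pool.Agent.Helper75.Zss.exists_hom (F := F) (p := ringChar F) hmax hp1
  obtain ⟨ω, hω⟩ := Pool.Agent.Helper75.Zss.exists_teich hmax ι₀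
  let π : integralClosure ℤ ℂ ⧸ 𝔓 →+* IsLocalRing.ResidueField A :=
    Ideal.Quotient.lift 𝔓 (resMap A) (fun a ha => by rw [h𝔓, RingHom.mem_ker] at ha; exact ha)
  refine ⟨π.comp ι₀, ω.ringHomComp (algebraMap (integralClosure ℤ ℂ) ℂ), fun x => ?_⟩
  have h1 : (ω.ringHomComp (algebraMap (integralClosure ℤ ℂ) ℂ)) (x : F) =
      ((ω x : integralClosure ℤ ℂ) : ℂ) := rfl
  rw [h1, res_coe, RingHom.comp_apply, ← hω]
  rfl

theorem exists_pow {n : ℕ} {τ η : MulChar F ℂ} (hτ : orderOf τ = Fintype.card F - 1) {m : ℕ} [NeZero m]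
    (hn : n = (Fintype.card F - 1) / m) (hη : orderOf η = m) : ∃ t : ℕ, t.Coprime m ∧ η = τ ^ (t * n) := by
  classical
  have hm0 : 0 < m := Nat.pos_of_ne_zero (NeZero.ne m)
  have hq1 : 0 < Fintype.card F - 1 := by
    have := Fintype.one_lt_card (α := F)
    omega
  obtain ⟨s, hs⟩ : ∃ s : ℕ, τ ^ s = η := by
    have h1 : Nat.card (Subgroup.zpowers (τ : MulChar F ℂ)) = Nat.card (MulChar F ℂ) := by
      rw [Nat.card_zpowers, hτ, MulChar.card_eq_card_units_of_hasEnoughRootsOfUnity, Nat.card_eq_fintype_card,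
        Fintype.card_units]
    have h2 := Subgroup.eq_top_of_card_eq _ h1
    have h3 : η ∈ Subgroup.zpowers (τ : MulChar F ℂ) := by
      rw [h2]
      exact Subgroup.mem_top _
    rw [← mem_powers_iff_mem_zpowers] at h3
    exact h3
  obtain ⟨N, hN⟩ : m ∣ Fintype.card F - 1 := by
    rw [← hτ, ← hη, ← hs]
    exact orderOf_pow_dvd s
  have hnN : n = N := by rw [hn, hN, Nat.mul_div_cancel_left _ hm0]
  have hN0 : 0 < N := by
    rcases Nat.eq_zero_or_pos N with h | h
    · rw [h, mul_zero] at hN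
      omega
    · exact h
  have hgcd : (Fintype.card F - 1).gcd s = N := by
    have h1 : orderOf (τ ^ s) = m := by rw [hs, hη]
    rw [orderOf_pow, hτ] at h1
    obtain ⟨c, hc⟩ := Nat.gcd_dvd_left (Fintype.card F - 1) s
    have hg0 : 0 < (Fintype.card F - 1).gcd s := Nat.gcd_pos_of_pos_left _ hq1
    have h3 : c = m := by
      rw [← h1]
      exact (Nat.div_eq_of_eq_mul_right hg0 hc).symm
    rw [h3] at hc
    apply Nat.eq_of_mul_eq_mul_right hm0
    rw [← hc, hN, mul_comm]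
  obtain ⟨t', ht'⟩ : N ∣ s := by
    rw [← hgcd]
    exact Nat.gcd_dvd_right _ _
  have hcop : t'.Coprime m := by
    rw [hN, ht', mul_comm m N, Nat.gcd_mul_left] at hgcd
    have h1 : m.gcd t' = 1 := by
      apply Nat.eq_of_mul_eq_mul_left hN0
      rw [hgcd, mul_one]
    rw [Nat.coprime_comm]
    exact h1
  exact ⟨t', hcop, by rw [hnN, mul_comm, ← ht', hs]⟩

theorem order_teich {A : ValuationSubring ℂ} {ι : F →+* IsLocalRing.ResidueField A} {τ : MulChar F ℂ}
    (h : ∀ x : Fˣ, res (resMap A) (τ x) = ι x) : orderOf τ = Fintype.card F - 1 := by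
  have h1 := order_tau (resMap A) ι τ h
  rwa [orderOf_inv] at h1

theorem exists_type {m : ℕ} (hm : 3 ≤ m) (hF : m ∣ Fintype.card F - 1) {η : MulChar F ℂ}
    (hη : orderOf η = m) (A : ValuationSubring ℂ)
    (hA : A.valuation ((ringChar F : ℕ) : ℂ) < 1) : ∃ t : ℕ, t.Coprime m ∧ IsPlace m η A t := by
  haveI : NeZero m := ⟨by omega⟩
  obtain ⟨ι, τ, h⟩ := exists_teich (F := F) A hA
  obtain ⟨t, ht, h1⟩ := exists_pow (order_teich h) rfl hη
  exact ⟨t, ht, hA, ι, τ, h, h1⟩

end Pool.Agent.Helper50.CC
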