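import Pool.Agent.Helper50.CC.Type

/-!
SB: the value of a Jacobi sum at a place of type `t`.
-/

set_option autoImplicit false

namespace Pool.Agent.Helper50.CC

open Module Pool.Agent.Helper71.AA Pool.Agent.Helper73.KT Pool.Agent.Helper70.CC
open Pool.Agent.Helper40.QC Pool.Agent.Helper50.SB Finset

variable {F : Type} [Field F] [Fintype F]

theorem av_congr {m p f t t' a b : ℕ} (h : t % m = t' % m) : av m p f t a b = av m p f t' a b := by
  unfold av
  refine sum_congr rfl fun i _ => ?_
  have h1 : ∀ c, p ^ i * t * c % m = p ^ i * t' * c % m := by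
    intro c
    have h2 : t ≡ t' [MOD m] := h
    exact (h2.mul_left (p ^ i)).mul_right c
  rw [h1, h1]

theorem av_periodic {m p f t a b : ℕ} (h : p ^ f ≡ 1 [MOD m]) (k : ℕ) :
    av m p (f * k) t a b = k * av m p f t a b := by
  induction k with
  | zero => simp [av]
  | succ k ih =>
    have h1 : av m p (f * (k + 1)) t a b = av m p (f * k) t a b +
        ∑ i ∈ range f, if p ^ (f * k + i) * t * a % m + p ^ (f * k + i) * t * b % m < m then 1 else 0 := by
      unfold av
      rw [mul_add, mul_one, sum_range_add]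
    have h2 : (∑ i ∈ range f, if p ^ (f * k + i) * t * a % m + p ^ (f * k + i) * t * b % m < m then 1 else 0) =
        av m p f t a b := by
      unfold av
      refine sum_congr rfl fun i _ => ?_
      have h3 : ∀ c, p ^ (f * k + i) * t * c % m = p ^ i * t * c % m := by
        intro c
        have h4 : p ^ (f * k + i) ≡ p ^ i [MOD m] := by
          rw [pow_add, pow_mul]
          have h5 := (h.pow k).mul_right (p ^ i)
          rwa [one_pow, one_mul] at h5
        exact (h4.mul_right t).mul_right c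
      rw [h3, h3]
    rw [h1, h2, ih]
    ring

theorem card_eq (F : Type) [Field F] [Fintype F] : ∃ n : ℕ, n ≠ 0 ∧ Fintype.card F = ringChar F ^ n := by
  haveI : CharP F (ringChar F) := ringChar.charP F
  obtain ⟨n, -, hn⟩ := FiniteField.card F (ringChar F)
  exact ⟨n, n.pos.ne', hn⟩

theorem jac_value {m : ℕ} (hm : 3 ≤ m) (hF : m ∣ Fintype.card F - 1) {η : MulChar F ℂ}
    {A : ValuationSubring ℂ} {t : ℕ} (ht : t.Coprime m) (hp : IsPlace m η A t) {a b : ℕ}
    (ha : 0 < a) (ham : a < m) (hb : 0 < b) (hbm : b < m) (hab : a + b ≠ m) :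
    A.valuation (jacobiSum (η ^ a) (η ^ b) ^ resDeg m F) =
      A.valuation ((Fintype.card F : ℂ) ^ av m (ringChar F) (resDeg m F) t a b) := by
  classical
  haveI : NeZero m := ⟨by omega⟩
  obtain ⟨hA, ι, τ, hτ, hη⟩ := hp
  have hpp := char_prime F
  haveI : Fact (ringChar F).Prime := ⟨hpp⟩
  obtain ⟨n, hn0, hK⟩ := card_eq F
  obtain ⟨p, hp⟩ : ∃ p, p = ringChar F := ⟨_, rfl⟩
  rw [← hp] at hA hpp hK ⊢
  haveI : Fact p.Prime := ⟨hpp⟩
  obtain ⟨N, hN⟩ := hF
  have hm0 : 0 < m := by omega
  have hq1 : 0 < Fintype.card F - 1 := by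
    have := Fintype.one_lt_card (α := F)
    omega
  have hN0 : 0 < N := by
    rcases Nat.eq_zero_or_pos N with h | h
    · rw [h, mul_zero] at hN
      omega
    · exact h
  have hmN : m * N + 1 = p ^ n := by
    rw [← hN, ← hK]
    omega
  rw [hN, Nat.mul_div_cancel_left _ hm0] at hη
  have hord := order_teich hτ
  obtain ⟨ψ, hψ⟩ := Pool.Agent.Helper75.Zss.exists_addChar F
  have hprim : ψ.IsPrimitive := AddChar.IsPrimitive.of_ne_one hψ
  obtain ⟨w, hw, hst⟩ := stickelberger (resMap A) ι τ A.valuation hK hτ (val_one_iff A) ψ hprim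
  have hw0 : w ≠ 0 := by
    rintro rfl
    have h1 : A.valuation (p : ℂ) = 0 := by
      rw [← hw, zero_pow]
      have := hpp.one_lt
      omega
    rw [map_eq_zero] at h1
    exact hpp.ne_zero (by exact_mod_cast h1)
  have hpn : ((p : ZMod m)) ^ n = 1 := by
    have h1 : ((m * N + 1 : ℕ) : ZMod m) = ((p ^ n : ℕ) : ZMod m) := by rw [hmN]
    push_cast at h1
    rw [ZMod.natCast_self, zero_mul, zero_add] at h1
    exact h1.symm
  have hpu : IsUnit (p : ZMod m) := IsUnit.of_pow_eq_one hpn hn0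
  -- the powers of `η`
  obtain ⟨bar, hbar⟩ : ∃ bar : ℕ → ℕ, bar = fun a : ℕ => (-(t : ZMod m) * (a : ZMod m)).val := ⟨_, rfl⟩
  have hbarlt : ∀ a, bar a < m := by
    intro a
    rw [hbar]
    exact ZMod.val_lt _
  have hpow : ∀ a : ℕ, η ^ a = τ⁻¹ ^ (bar a * N) := by
    intro a
    rw [inv_pow, eq_inv_iff_mul_eq_one, hη, ← pow_mul, ← pow_add]
    apply orderOf_dvd_iff_pow_eq_one.1
    rw [hord, hN]
    have h1 : t * N * a + bar a * N = (t * a + bar a) * N := by ring
    rw [h1]
    apply Nat.mul_dvd_mul_right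
    rw [← ZMod.natCast_eq_zero_iff, hbar]
    push_cast
    rw [ZMod.natCast_val, ZMod.cast_id]
    ring
  have hG : ∀ a : ℕ, A.valuation (gaussSum (η ^ a) ψ) = w ^ (Nat.digits p (bar a * N)).sum := by
    intro a
    rw [hpow a]
    apply hst
    have h2 : bar a * N < m * N := Nat.mul_lt_mul_of_pos_right (hbarlt a) hN0
    omega
  have htu : IsUnit (t : ZMod m) := (ZMod.isUnit_iff_coprime t m).2 ht
  have hcast : ∀ c : ℕ, 0 < c → c < m → (c : ZMod m) ≠ 0 := by
    intro c h1 h2 h
    rw [ZMod.natCast_eq_zero_iff] at h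
    exact absurd (Nat.le_of_dvd h1 h) (by omega)
  have h1 := hcast a ha ham
  have h2 := hcast b hb hbm
  have h3 : (a : ZMod m) + b ≠ 0 := by
    intro h
    have h4 : ((a + b : ℕ) : ZMod m) = 0 := by push_cast; exact h
    rw [ZMod.natCast_eq_zero_iff] at h4
    obtain ⟨c, hc⟩ := h4
    have h5 : c < 2 := by
      by_contra h6
      have : m * 2 ≤ m * c := Nat.mul_le_mul_left _ (by omega)
      omega
    interval_cases c <;> omega
  have hne : η ^ a * η ^ b ≠ 1 := by
    rw [← pow_add, hη, ← pow_mul]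
    intro h
    have h4 := orderOf_dvd_of_pow_eq_one h
    rw [hord, hN] at h4
    have h5 : t * N * (a + b) = (t * (a + b)) * N := by ring
    rw [h5] at h4
    have h6 := Nat.dvd_of_mul_dvd_mul_right hN0 h4
    rw [← ZMod.natCast_eq_zero_iff] at h6
    push_cast at h6
    exact h3 ((IsUnit.mul_right_eq_zero htu).1 h6)
  have h4 := jacobiSum_mul_nontrivial hne ψ
  rw [← pow_add] at h4
  have h5 := congrArg A.valuation h4
  rw [map_mul, map_mul, hG, hG, hG, ← pow_add, digits_add hpp.one_lt hmN (hbarlt a) (hbarlt b)] at h5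
  have h6 : bar (a + b) = (bar a + bar b) % m := by
    rw [hbar]
    simp only
    rw [Nat.cast_add, mul_add, ZMod.val_add]
  rw [h6, pow_add] at h5
  have h7 := mul_left_cancel₀ (pow_ne_zero _ hw0) h5
  rw [pow_mul, hw] at h7
  -- the number of carries
  have h8 : carries p n m (bar a) (bar b) = av m p n t a b := by
    have e1 : carries p n m (bar a) (bar b) = carry p n (-(t : ZMod m)) (a : ZMod m) (b : ZMod m) := by
      rw [carry_eq, hbar]
    obtain ⟨u, hu⟩ := htu
    have e2 := carry_nocarry (f := n) hpu (-u) h1 h2 h3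
    rw [e1]
    have e3 : ((-u : (ZMod m)ˣ) : ZMod m) = -(t : ZMod m) := by rw [Units.val_neg, hu]
    rw [e3, neg_neg, ZMod.val_natCast] at e2
    rw [e2]
    exact av_congr (Nat.mod_mod t m)
  rw [h8] at h7
  -- the residue degree
  have hf : resDeg m F = orderOf (p : ZMod m) := by rw [hp]; rfl
  have hpf : p ^ resDeg m F ≡ 1 [MOD m] := by
    rw [← ZMod.natCast_eq_natCast_iff, hf]
    push_cast
    exact pow_orderOf_eq_one _
  obtain ⟨k, hk⟩ : resDeg m F ∣ n := by
    rw [hf]
    exact orderOf_dvd_of_pow_eq_one hpn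
  have h9 : av m p n t a b = k * av m p (resDeg m F) t a b := by
    rw [hk]
    exact av_periodic hpf k
  rw [map_pow, h7, h9, hK, Nat.cast_pow, map_pow, map_pow, ← pow_mul, ← pow_mul]
  congr 1
  conv_rhs => rw [hk]
  ring

end Pool.Agent.Helper50.CC
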